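import Pool.Agent.Helper77.PPB.Goals3
import Pool.Agent.Helper58.PPB.BNTV

/-!
# Packet PPB-B_NTV2: the condition NTV2
-/

set_option autoImplicit false

namespace Pool.Agent.Helper91.PPB

open NumberField Polynomial Module IsDedekindDomain
open _root_.Pool.Agent.Helper51.SigLeo
open _root_.Pool.Agent.Helper51.RP _root_.Pool.Agent.Helper42.RD
open _root_.Pool.Agent.Helper42.PP (nsig)
open _root_.Pool.Agent.Helper42.PP1 (SitW NTV)
open _root_.Pool.Agent.Helper22.PP (nsig_eq nsig_mul nsig_one nsig_ne)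
open _root_.Pool.Agent.Helper76.PP (root_pow_eq_one)
open _root_.Pool.Agent.Helper11.R (NTV2)

/-- Independence of homomorphisms: the coefficient of a homomorphism which occurs once. -/
theorem coeff_zero {G L ι : Type} [Monoid G] [Field L] [Fintype ι] (χ : ι → G →* L) (c : ι → L)
    (h : ∀ g, ∑ i, c i * χ i g = 0) (i₀ : ι) (hi : ∀ i, i ≠ i₀ → χ i ≠ χ i₀) : c i₀ = 0 := by
  classical
  have hli := linearIndependent_monoidHom G L
  rw [linearIndependent_iff] at hli
  have h1 := hli (∑ i, Finsupp.single (χ i) (c i)) (by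
    rw [map_sum]
    funext g
    simp only [Finsupp.linearCombination_single, Finset.sum_apply, Pi.smul_apply, smul_eq_mul]
    exact h g)
  have h2 := DFunLike.congr_fun h1 (χ i₀)
  rw [Finsupp.finset_sum_apply] at h2
  simp only [Finsupp.single_apply] at h2
  rw [Finset.sum_eq_single i₀ (fun i _ hne => if_neg (hi i hne))
    (fun hn => absurd (Finset.mem_univ _) hn), if_pos rfl] at h2
  exact h2

section core

variable {p : ℕ} {κ G : Type} [Field κ] [Group G] (f : ℕ) (lam nu : G →* κ)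

theorem hom_ne (h : G →* κ) (g : G) : h g ≠ 0 := by
  intro h0
  have h1 : h (g * g⁻¹) = 1 := by rw [mul_inv_cancel, map_one]
  rw [map_mul, h0, zero_mul] at h1
  exact zero_ne_one h1

/-- The family of the homomorphisms. -/
noncomputable def fam (p : ℕ) : Fin f ⊕ (Fin f ⊕ (Unit ⊕ Unit)) → G →* κ
  | .inl k => (powMonoidHom (p ^ (k : ℕ))).comp (invMonoidHom.comp lam)
  | .inr (.inl k) => (invMonoidHom.comp nu) * (powMonoidHom (p ^ (k : ℕ))).comp lam
  | .inr (.inr (.inl _)) => invMonoidHom.comp nu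
  | .inr (.inr (.inr _)) => 1

theorem fam1 (k : Fin f) (g : G) : fam f lam nu p (.inl k) g = ((lam g)⁻¹) ^ p ^ (k : ℕ) := rfl

theorem fam2 (k : Fin f) (g : G) :
    fam f lam nu p (.inr (.inl k)) g = (nu g)⁻¹ * (lam g) ^ p ^ (k : ℕ) := rfl

theorem fam3 (u : Unit) (g : G) : fam f lam nu p (.inr (.inr (.inl u))) g = (nu g)⁻¹ := rfl

theorem fam4 (u : Unit) (g : G) : fam f lam nu p (.inr (.inr (.inr u))) g = 1 := rfl

theorem core (hf0 : 0 < f) (h1 : ∃ g, lam g ≠ 1) (h2 : ∃ g, lam g ≠ nu g)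
    (h3 : ∀ j : ℕ, ∃ g, lam g ^ (1 + p ^ j) ≠ nu g)
    (h4 : ∀ k, 0 < k → k < f → ∃ g, lam g ^ p ^ k ≠ lam g) (a b γ γ' : κ)
    (h : ∀ g, ∑ k ∈ Finset.range f, (a * (lam g)⁻¹) ^ p ^ k +
      (nu g)⁻¹ * ∑ k ∈ Finset.range f, (b * lam g) ^ p ^ k + γ * (nu g)⁻¹ + γ' = 0) :
    a = 0 ∧ b = 0 := by
  classical
  set c : Fin f ⊕ (Fin f ⊕ (Unit ⊕ Unit)) → κ := Sum.elim (fun k => a ^ p ^ (k : ℕ))
    (Sum.elim (fun k => b ^ p ^ (k : ℕ)) (Sum.elim (fun _ => γ) fun _ => γ')) with hc
  have hsum : ∀ g, ∑ i, c i * fam f lam nu p i g = 0 := by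
    intro g
    rw [← h g, Fintype.sum_sum_type, Fintype.sum_sum_type, Fintype.sum_sum_type]
    simp only [hc, Sum.elim_inl, Sum.elim_inr, fam1, fam2, fam3, fam4, Finset.univ_unique,
      Finset.sum_singleton, mul_one]
    rw [Finset.sum_range, Finset.sum_range, Finset.mul_sum]
    simp only [mul_pow]
    rw [← add_assoc, ← add_assoc]
    congr 3
    refine Finset.sum_congr rfl fun k _ => ?_
    ring
  have hl := hom_ne lam
  have hn := hom_ne nu
  obtain ⟨g1, hg1⟩ := h1
  obtain ⟨g2, hg2⟩ := h2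
  constructor
  · have h5 := coeff_zero (fam f lam nu p) c hsum (.inl ⟨0, hf0⟩) (by
      rintro (k | k | u | u) hne he
      · have hk : 0 < (k : ℕ) := by
          rcases Nat.eq_zero_or_pos (k : ℕ) with h0 | h0
          · exact absurd (congrArg Sum.inl (Fin.ext h0)) hne
          · exact h0
        obtain ⟨g, hg⟩ := h4 k hk k.2
        have h6 := DFunLike.congr_fun he g
        rw [fam1, fam1, pow_zero, pow_one, inv_pow] at h6
        exact hg (inv_injective h6)
      · obtain ⟨g, hg⟩ := h3 k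
        have h6 := DFunLike.congr_fun he g
        rw [fam2, fam1, pow_zero, pow_one] at h6
        apply hg
        have h7 := hl g
        have h8 := hn g
        field_simp at h6
        rw [pow_add, pow_one]
        rw [← h6]
        ring
      · have h6 := DFunLike.congr_fun he g2
        rw [fam3, fam1, pow_zero, pow_one] at h6
        exact hg2 (inv_injective h6).symm
      · have h6 := DFunLike.congr_fun he g1
        rw [fam4, fam1, pow_zero, pow_one] at h6
        exact hg1 (by rw [← inv_inv (lam g1), ← h6, inv_one]))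
    simpa [hc] using h5
  · have h5 := coeff_zero (fam f lam nu p) c hsum (.inr (.inl ⟨0, hf0⟩)) (by
      rintro (k | k | u | u) hne he
      · obtain ⟨g, hg⟩ := h3 k
        have h6 := DFunLike.congr_fun he g
        rw [fam2, fam1, pow_zero, pow_one] at h6
        apply hg
        have h7 := hl g
        have h8 := hn g
        rw [inv_pow] at h6
        field_simp at h6
        rw [pow_add, pow_one]
        rw [h6]
        ring
      · have hk : 0 < (k : ℕ) := by
          rcases Nat.eq_zero_or_pos (k : ℕ) with h0 | h0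
          · exact absurd (congrArg (fun z => Sum.inr (Sum.inl z)) (Fin.ext h0)) hne
          · exact h0
        obtain ⟨g, hg⟩ := h4 k hk k.2
        have h6 := DFunLike.congr_fun he g
        rw [fam2, fam2, pow_zero, pow_one] at h6
        exact hg (mul_left_cancel₀ (inv_ne_zero (hn g)) h6)
      · have h6 := DFunLike.congr_fun he g1
        rw [fam3, fam2, pow_zero, pow_one] at h6
        exact hg1 (mul_left_cancel₀ (inv_ne_zero (hn g1)) (by rw [← h6, mul_one]))
      · have h6 := DFunLike.congr_fun he g2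
        rw [fam4, fam2, pow_zero, pow_one] at h6
        apply hg2
        have h8 := hn g2
        field_simp at h6
        exact h6.symm)
    simpa [hc] using h5

end core

section field

variable {p : ℕ} [hpF : Fact p.Prime] {P : (ZMod p)[X]} [hPF : Fact (Irreducible P)]

theorem finite_adjoin : Finite (AdjoinRoot P) := by
  have h1 : Module.Finite (ZMod p) (AdjoinRoot P) :=
    (AdjoinRoot.powerBasis hPF.out.ne_zero).finite
  exact Module.finite_of_finite (ZMod p)

theorem root_pow_ne {k : ℕ} (hk : 0 < k) (hkf : k < finrank (ZMod p) (AdjoinRoot P)) :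
    AdjoinRoot.root P ^ p ^ k ≠ AdjoinRoot.root P := by
  intro h
  have hfin : Finite (AdjoinRoot P) := finite_adjoin
  have hch : CharP (AdjoinRoot P) p := charP_of_injective_algebraMap
    (algebraMap (ZMod p) (AdjoinRoot P)).injective p
  have hex : ExpChar (AdjoinRoot P) p := ExpChar.prime hpF.out
  have h1 : ∀ x : AdjoinRoot P, x ^ p ^ k = x := by
    intro x
    obtain ⟨q, rfl⟩ := AdjoinRoot.mk_surjective x
    have e1 : AdjoinRoot.mk P q = eval₂ (algebraMap (ZMod p) (AdjoinRoot P))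
        (AdjoinRoot.root P) q := by
      rw [← AdjoinRoot.aeval_eq]
      rfl
    have e2 := Polynomial.hom_eval₂ q (algebraMap (ZMod p) (AdjoinRoot P))
      (iterateFrobenius (AdjoinRoot P) p k) (AdjoinRoot.root P)
    rw [iterateFrobenius_def, iterateFrobenius_def, h,
      Subsingleton.elim ((iterateFrobenius (AdjoinRoot P) p k).comp
        (algebraMap (ZMod p) (AdjoinRoot P))) (algebraMap (ZMod p) (AdjoinRoot P)), ← e1] at e2
    exact e2
  have hft : Fintype (AdjoinRoot P) := Fintype.ofFinite _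
  have hp1 : 1 < p ^ k := Nat.one_lt_pow hk.ne' hpF.out.one_lt
  have h2 : Fintype.card (AdjoinRoot P) - 1 ∣ p ^ k - 1 := by
    rw [← FiniteField.forall_pow_eq_one_iff]
    intro x
    have h3 : x ^ p ^ k = x := Units.ext (by
      rw [Units.val_pow_eq_pow_val]
      exact h1 x)
    have h4 : x * x ^ (p ^ k - 1) = x * 1 := by
      rw [mul_one, ← pow_succ', Nat.sub_add_cancel hp1.le, h3]
    exact mul_left_cancel h4
  have h3 := Nat.le_of_dvd (by omega) h2
  have h4 : Fintype.card (AdjoinRoot P) = p ^ finrank (ZMod p) (AdjoinRoot P) := by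
    rw [← Nat.card_eq_fintype_card, Module.natCard_eq_pow_finrank (K := ZMod p), Nat.card_zmod]
  have h5 : p ^ k < p ^ finrank (ZMod p) (AdjoinRoot P) :=
    Nat.pow_lt_pow_right hpF.out.one_lt hkf
  omega

theorem exists_beta (tr : AdjoinRoot P →ₗ[ZMod p] ZMod p) (htr : tr ≠ 0) :
    ∃ β : AdjoinRoot P, β ≠ 0 ∧ ∀ x, algebraMap (ZMod p) (AdjoinRoot P) (tr x) =
      ∑ k ∈ Finset.range (finrank (ZMod p) (AdjoinRoot P)), (β * x) ^ p ^ k := by
  have hfin : Finite (AdjoinRoot P) := finite_adjoin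
  have hmf : Module.Finite (ZMod p) (AdjoinRoot P) :=
    (AdjoinRoot.powerBasis hPF.out.ne_zero).finite
  have hnd := traceForm_nondegenerate (ZMod p) (AdjoinRoot P)
  set β := ((Algebra.traceForm (ZMod p) (AdjoinRoot P)).toDual hnd).symm tr with hβ
  have h1 : ∀ x, Algebra.trace (ZMod p) (AdjoinRoot P) (β * x) = tr x := fun x =>
    LinearMap.BilinForm.apply_toDual_symm_apply (hB := hnd) tr x
  refine ⟨β, ?_, fun x => ?_⟩
  · intro h0
    apply htr
    ext x
    rw [← h1, h0, zero_mul, map_zero]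
    rfl
  · rw [← h1, FiniteField.algebraMap_trace_eq_sum_pow, Nat.card_zmod]

end field

theorem ntv2_gen (p : ℕ) [Fact p.Prime] (K M K₁ M₁ : Type) [Field K] [NumberField K] [Field M]
    [NumberField M] [Field K₁] [NumberField K₁] [Field M₁] [NumberField M₁] [Algebra K M]
    [Algebra K K₁] [Algebra K M₁] [Algebra M M₁] [Algebra K₁ M₁] (ε : K₁) (δ : M ≃ₐ[K] M)
    (P : (ZMod p)[X]) (hW : SitW p K M K₁ M₁ ε δ P) (hcop : AdjoinRoot.root P ≠ 1)
    (h2 : ∃ (g : M₁ ≃ₐ[K] M₁) (i : ℕ) (σ : K₁ ≃ₐ[K] K₁),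
      (∀ y : M, g (algebraMap M M₁ y) = algebraMap M M₁ ((δ ^ i) y)) ∧
      (∀ y : K₁, g (algebraMap K₁ M₁ y) = algebraMap K₁ M₁ (σ y)) ∧
      AdjoinRoot.root P ^ i ≠ algebraMap (ZMod p) (AdjoinRoot P) (nsig p ε σ))
    (h3 : ∀ j : ℕ, ∃ (g : M₁ ≃ₐ[K] M₁) (i : ℕ) (σ : K₁ ≃ₐ[K] K₁),
      (∀ y : M, g (algebraMap M M₁ y) = algebraMap M M₁ ((δ ^ i) y)) ∧
      (∀ y : K₁, g (algebraMap K₁ M₁ y) = algebraMap K₁ M₁ (σ y)) ∧
      (AdjoinRoot.root P ^ i) ^ (1 + p ^ j) ≠ algebraMap (ZMod p) (AdjoinRoot P) (nsig p ε σ)) :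
    NTV2 p M₁ ε δ P := by
  have hp : p.Prime := Fact.out
  have : IsScalarTower K M M₁ := hW.st1
  have : IsScalarTower K K₁ M₁ := hW.st2
  have : IsGalois K M := hW.gM
  have : IsGalois K K₁ := hW.gK
  have : IsGalois K M₁ := hW.gMK
  have : Fact (Irreducible P) := ⟨hW.irr⟩
  have hfin : Finite (AdjoinRoot P) := finite_adjoin
  have hmf : Module.Finite (ZMod p) (AdjoinRoot P) :=
    (AdjoinRoot.powerBasis hW.irr.ne_zero).finite
  set m := finrank K M with hm
  have hm0 : 0 < m := finrank_pos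
  set t : AdjoinRoot P := AdjoinRoot.root P with ht
  have htm : t ^ m = 1 := root_pow_eq_one hW.dvdP
  have ht0 : t ≠ 0 := by
    intro h
    rw [h, zero_pow hm0.ne'] at htm
    exact zero_ne_one htm
  have hcard : Nat.card (M ≃ₐ[K] M) = m := IsGalois.card_aut_eq_finrank K M
  have htop : Subgroup.zpowers δ = ⊤ := by
    apply Subgroup.eq_top_of_card_eq
    rw [Nat.card_zpowers, hW.ord, hcard]
  have hgen : ∀ x : M ≃ₐ[K] M, x ∈ Subgroup.zpowers δ := fun x => by
    rw [htop]; exact Subgroup.mem_top _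
  -- the homomorphism `lam`
  set tu : (AdjoinRoot P)ˣ := Units.mk0 t ht0 with htu
  have htu1 : orderOf tu ∣ orderOf δ := by
    rw [hW.ord, orderOf_dvd_iff_pow_eq_one]
    apply Units.ext
    rw [Units.val_pow_eq_pow_val]
    exact htm
  set lam₀ : (M ≃ₐ[K] M) →* (AdjoinRoot P)ˣ := monoidHomOfForallMemZpowers hgen htu1 with hlam₀
  have hlam₀' : ∀ i : ℕ, ((lam₀ (δ ^ i) : (AdjoinRoot P)ˣ) : AdjoinRoot P) = t ^ i := by
    intro i
    rw [map_pow, hlam₀, monoidHomOfForallMemZpowers_apply_gen, Units.val_pow_eq_pow_val]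
    rfl
  set lam : (M₁ ≃ₐ[K] M₁) →* AdjoinRoot P :=
    (Units.coeHom _).comp (lam₀.comp (AlgEquiv.restrictNormalHom M)) with hlam
  have hresM : ∀ (g : M₁ ≃ₐ[K] M₁) (y : M),
      g (algebraMap M M₁ y) = algebraMap M M₁ (AlgEquiv.restrictNormalHom M g y) := fun g y ↦
    (AlgEquiv.restrictNormal_commutes g M y).symm
  have hresK : ∀ (g : M₁ ≃ₐ[K] M₁) (y : K₁),
      g (algebraMap K₁ M₁ y) = algebraMap K₁ M₁ (AlgEquiv.restrictNormalHom K₁ g y) := fun g y ↦
    (AlgEquiv.restrictNormal_commutes g K₁ y).symm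
  have hlam_eq : ∀ (g : M₁ ≃ₐ[K] M₁) (i : ℕ),
      (∀ y : M, g (algebraMap M M₁ y) = algebraMap M M₁ ((δ ^ i) y)) → lam g = t ^ i := by
    intro g i hg
    have h5 : AlgEquiv.restrictNormalHom M g = δ ^ i := by
      ext y
      apply (algebraMap M M₁).injective
      rw [← hresM, hg]
    show ((lam₀ (AlgEquiv.restrictNormalHom M g) : (AdjoinRoot P)ˣ) : AdjoinRoot P) = _
    rw [h5, hlam₀']
  -- the homomorphism `nu`
  set nu : (M₁ ≃ₐ[K] M₁) →* AdjoinRoot P :=
    { toFun := fun g => algebraMap (ZMod p) (AdjoinRoot P)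
        (nsig p ε (AlgEquiv.restrictNormalHom K₁ g))
      map_one' := by rw [map_one, nsig_one hW.prim, map_one]
      map_mul' := fun g g' => by rw [map_mul, nsig_mul hW.prim, map_mul] } with hnu
  have hnu' : ∀ g, nu g = algebraMap (ZMod p) (AdjoinRoot P)
      (nsig p ε (AlgEquiv.restrictNormalHom K₁ g)) := fun _ => rfl
  have hnu_eq : ∀ (g : M₁ ≃ₐ[K] M₁) (σ : K₁ ≃ₐ[K] K₁),
      (∀ y : K₁, g (algebraMap K₁ M₁ y) = algebraMap K₁ M₁ (σ y)) →
      nu g = algebraMap (ZMod p) (AdjoinRoot P) (nsig p ε σ) := by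
    intro g σ hg
    have h5 : AlgEquiv.restrictNormalHom K₁ g = σ := by
      ext y
      apply (algebraMap K₁ M₁).injective
      rw [← hresK, hg]
    rw [hnu', h5]
  -- surjectivity
  obtain ⟨g₁, hg₁⟩ := AlgEquiv.restrictNormalHom_surjective (F := K) (K₁ := M) M₁ δ
  have hlg₁ : lam g₁ = t := by
    have := hlam_eq g₁ 1 (fun y => by rw [hresM, hg₁, pow_one])
    rwa [pow_one] at this
  intro tr htr η η' γ γ' hη
  by_contra hcon
  push Not at hcon
  obtain ⟨β, hβ, htrace⟩ := exists_beta tr htr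
  have hmain := core (p := p) (finrank (ZMod p) (AdjoinRoot P)) lam nu finrank_pos
    ⟨g₁, by rw [hlg₁]; exact hcop⟩
    (by
      obtain ⟨g, i, σ, ha, hb, hc⟩ := h2
      exact ⟨g, by rw [hlam_eq g i ha, hnu_eq g σ hb]; exact hc⟩)
    (fun j => by
      obtain ⟨g, i, σ, ha, hb, hc⟩ := h3 j
      exact ⟨g, by rw [hlam_eq g i ha, hnu_eq g σ hb]; exact hc⟩)
    (fun k hk hkf => ⟨g₁, by rw [hlg₁]; exact root_pow_ne hk hkf⟩)
    (β * η) (β * η') (algebraMap (ZMod p) (AdjoinRoot P) γ)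
    (algebraMap (ZMod p) (AdjoinRoot P) γ') (by
      intro g
      obtain ⟨i₀, hi₀⟩ : ∃ i : ℕ, δ ^ i = AlgEquiv.restrictNormalHom M g := by
        have h5 := hgen (AlgEquiv.restrictNormalHom M g)
        rw [← mem_powers_iff_mem_zpowers] at h5
        exact h5
      set i := i₀ % m with hi
      have hi' : δ ^ i = AlgEquiv.restrictNormalHom M g := by
        have := pow_mod_orderOf δ i₀
        rw [hW.ord] at this
        rw [hi, this, hi₀]
      have him : i < m := Nat.mod_lt _ hm0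
      have ha : ∀ y : M, g (algebraMap M M₁ y) = algebraMap M M₁ ((δ ^ i) y) := fun y => by
        rw [hresM, hi']
      have h5 := hcon g i (AlgEquiv.restrictNormalHom K₁ g) him ha (hresK g)
      have hh : ∀ a b c d e : ZMod p, a + b⁻¹ * c + d * b⁻¹ + e = 0 →
          algebraMap (ZMod p) (AdjoinRoot P) a + (algebraMap (ZMod p) (AdjoinRoot P) b)⁻¹ *
            algebraMap (ZMod p) (AdjoinRoot P) c + algebraMap (ZMod p) (AdjoinRoot P) d *
            (algebraMap (ZMod p) (AdjoinRoot P) b)⁻¹ + algebraMap (ZMod p) (AdjoinRoot P) e =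
          0 := by
        intro a b c d e h
        rw [← map_inv₀, ← map_mul, ← map_mul, ← map_add, ← map_add, ← map_add, h, map_zero]
      have h6 := hh _ _ _ _ _ h5
      rw [htrace, htrace] at h6
      have h7 : lam g = t ^ i := hlam_eq g i ha
      have h8 : t ^ (m - i) = (lam g)⁻¹ := by
        symm
        rw [h7]
        apply inv_eq_of_mul_eq_one_right
        rw [← pow_add, Nat.add_sub_cancel' him.le, htm]
      rw [h8, ← h7, ← hnu'] at h6
      rw [← h6]
      simp only [mul_assoc])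
  apply hη
  constructor
  · exact (mul_eq_zero.1 hmain.1).resolve_left hβ
  · exact (mul_eq_zero.1 hmain.2).resolve_left hβ

theorem b_ntv2 : _root_.Pool.Agent.Helper77.PPB.B_NTV2 := by
  intro p hpF K _ _ M K₁ M₁ _ _ _ _ _ _ hM hK₁ ε δ P hW χ₀ Φ hord hPhi hg hgj
  have hp : p.Prime := hpF.out
  have hgK : IsGalois K K₁ := hW.gK
  have hgMK : IsGalois K M₁ := hW.gMK
  have hPF : Fact (Irreducible P) := ⟨hW.irr⟩
  have hcard : Nat.card (M ≃ₐ[K] M) = finrank K M := IsGalois.card_aut_eq_finrank K M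
  have htop : Subgroup.zpowers δ = ⊤ := by
    apply Subgroup.eq_top_of_card_eq
    rw [Nat.card_zpowers, hord, hcard]
  have hζ : ‖((χ₀ δ : ℂ_[p]ˣ) : ℂ_[p])‖ = 1 := by
    have hm : finrank K M ≠ 0 := by
      have := hPhi.one_lt
      omega
    have h1 : ‖((χ₀ δ : ℂ_[p]ˣ) : ℂ_[p])‖ ^ finrank K M = 1 := by
      rw [← norm_pow, hPhi.prim.pow_eq_one, norm_one]
    exact (pow_eq_one_iff_of_nonneg (norm_nonneg _) hm).1 h1
  have hkey : ∀ (g : AlgebraicClosure K ≃ₐ[K] AlgebraicClosure K) (r e : ℕ),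
      (∀ ξ : AlgebraicClosure K, ξ ^ p = 1 → g ξ = ξ ^ r) →
      ‖((χ₀ (AlgEquiv.restrictNormalHom M g) : ℂ_[p]ˣ) : ℂ_[p]) ^ e - r‖ = 1 →
      ∃ (g' : M₁ ≃ₐ[K] M₁) (i : ℕ) (σ : K₁ ≃ₐ[K] K₁),
        (∀ y : M, g' (algebraMap M M₁ y) = algebraMap M M₁ ((δ ^ i) y)) ∧
        (∀ y : K₁, g' (algebraMap K₁ M₁ y) = algebraMap K₁ M₁ (σ y)) ∧
        (AdjoinRoot.root P ^ i) ^ e ≠ algebraMap (ZMod p) (AdjoinRoot P) (nsig p ε σ) := by
    intro g r e hgr hnorm
    obtain ⟨t, ht⟩ : ∃ t : ℕ, δ ^ t = AlgEquiv.restrictNormalHom M g := by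
      have h1 : AlgEquiv.restrictNormalHom M g ∈ Subgroup.zpowers δ := by
        rw [htop]
        exact Subgroup.mem_top _
      rw [← mem_powers_iff_mem_zpowers] at h1
      exact h1
    have hndvd : ¬ P ∣ (X ^ t) ^ e - C ((r : ZMod p)) := by
      intro hdvd
      have h1 := Pool.Agent.Helper58.PPB.small hζ.le hPhi.root hPhi.map
        ((X ^ t) ^ e - C (r : ℤ_[p])) (by
          rw [Polynomial.map_sub, Polynomial.map_pow, Polynomial.map_pow, map_X, map_C,
            map_natCast]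
          exact hdvd)
      rw [eval₂_sub, eval₂_pow, eval₂_pow, eval₂_X, eval₂_C, map_natCast] at h1
      rw [← ht, map_pow, Units.val_pow_eq_pow_val] at hnorm
      rw [hnorm] at h1
      exact lt_irrefl _ h1
    have hres : ∀ (N : IntermediateField K (AlgebraicClosure K)) [Normal K N] (y : N),
        ((AlgEquiv.restrictNormalHom N g y : N) : AlgebraicClosure K) =
          g (y : AlgebraicClosure K) := fun N _ y ↦ AlgEquiv.restrictNormal_commutes g N y
    refine ⟨AlgEquiv.restrictNormalHom M₁ g, t, AlgEquiv.restrictNormalHom K₁ g, ?_, ?_, ?_⟩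
    · intro y
      apply Subtype.ext
      rw [hres M₁, hM, hM, ht, hres M]
    · intro y
      apply Subtype.ext
      rw [hres M₁, hK₁, hK₁, hres K₁]
    · have hε : AlgEquiv.restrictNormalHom K₁ g ε = ε ^ r := by
        apply Subtype.ext
        rw [hres K₁, hgr _ (by
          have := congrArg (fun z : K₁ ↦ (z : AlgebraicClosure K)) hW.prim.pow_eq_one
          simpa using this)]
        rfl
      rw [nsig_eq hW.prim hε]
      intro h
      apply hndvd
      rw [← AdjoinRoot.mk_eq_zero, map_sub, map_pow, map_pow, AdjoinRoot.mk_X, h]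
      have : AdjoinRoot.mk P (C (r : ZMod p)) = algebraMap (ZMod p) (AdjoinRoot P) (r : ZMod p) :=
        rfl
      rw [this, sub_self]
  refine ntv2_gen p K M K₁ M₁ ε δ P hW ?_ ?_ ?_
  · intro h1
    have h2 : IsCoprime P (X ^ 1 - 1) := hPhi.cop 1 one_pos hPhi.one_lt (one_dvd _)
    rw [pow_one] at h2
    have h3 : P ∣ X - 1 := by
      rw [← AdjoinRoot.mk_eq_zero, map_sub, map_one, AdjoinRoot.mk_X, h1, sub_self]
    exact hW.irr.not_isUnit (h2.isUnit_of_dvd' dvd_rfl h3)
  · obtain ⟨g, r, hgr, hnorm⟩ := hg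
    obtain ⟨g', i, σ, ha, hb, hc⟩ := hkey g r 1 hgr (by rwa [pow_one])
    exact ⟨g', i, σ, ha, hb, by rwa [pow_one] at hc⟩
  · intro j
    obtain ⟨g, r, hgr, hnorm⟩ := hgj j
    exact hkey g r (1 + p ^ j) hgr hnorm

end Pool.Agent.Helper91.PPB
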